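import Pool.Agent.X13.AMM.Check

/-!
# The stable 2-adic class count `μ_k` is not monotone in `k`: `μ_70 = 34` and `μ_71 = 32`
-/

namespace Pool.Agent.Results.MP_6194d2_nt.NotMonotone

/-- The class `[n]_t = {j : j ≥ max(n,t), j ≡ n (mod t)}`. -/
def cls (n t : ℕ) : Set ℕ := {j | max n t ≤ j ∧ j ≡ n [MOD t]}

/-- `f` is constant on `s`: the image of `s` is a single point. -/
def ConstOn (f : ℕ → ℕ) (s : Set ℕ) : Prop := ∃ c, f '' s = {c}

/-- `N_{k,m}`: the `n` with `k ≤ n < k + 2^m` such that `j ↦ ν₂(S(j,k))` is not constant on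
`[n]_{2^m}`. -/
def nonconst (k m : ℕ) : Set ℕ :=
  {n | k ≤ n ∧ n < k + 2 ^ m ∧
    ¬ ConstOn (fun j => padicValNat 2 (Nat.stirlingSecond j k)) (cls n (2 ^ m))}

/-- `μ_k` exists and equals `μ`: the sequence `#N_{k,m}` is eventually constant, equal to `μ`. -/
def HasMu (k μ : ℕ) : Prop := ∃ M : ℕ, ∀ m : ℕ, M ≤ m → (nonconst k m).ncard = μ

/-- **Main theorem.** `μ_70` exists and equals `34`, `μ_71` exists and equals `32`; hence `μ_k` is
not a non-decreasing function of `k`. -/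
theorem result :
    HasMu 70 34 ∧ HasMu 71 32 ∧
      ¬ ∀ k k' μ μ' : ℕ, 1 ≤ k → k < k' → HasMu k μ → HasMu k' μ' → μ ≤ μ' := by
  have h70 : HasMu 70 34 := ⟨9, fun m hm => by
    obtain ⟨e, rfl⟩ : ∃ e, m = 9 + e := ⟨m - 9, by omega⟩
    exact Pool.Agent.X13.AMM.count70 e⟩
  have h71 : HasMu 71 32 := ⟨9, fun m hm => by
    obtain ⟨e, rfl⟩ : ∃ e, m = 9 + e := ⟨m - 9, by omega⟩
    exact Pool.Agent.X13.AMM.count71 e⟩
  refine ⟨h70, h71, fun h => ?_⟩
  have := h 70 71 34 32 (by norm_num) (by norm_num) h70 h71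
  omega

end Pool.Agent.Results.MP_6194d2_nt.NotMonotone
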